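import Pool.Agent.TH867.BK.Height
import Pool.Agent.TH867.SR.Smooth

/-! Triples with a light product in a given family of integers; all heights (helper867). -/

set_option autoImplicit false

namespace Pool.Agent.TH867.SM

open Finset
open Pool.Agent.TH867.SR

/-- light triples of one scale, the light product in a given family -/
theorem fam_scale {k : ℕ} (hk : 1 ≤ k) : ∃ D : ℝ, 0 < D ∧ ∀ (W : Finset ℕ) (M l : ℝ), 1 ≤ M →
    (∀ m ∈ W, 1 ≤ m ∧ (m : ℝ) ≤ M) → 2 * (k : ℝ) ≤ l → ∀ F : Finset (Fin 3 → ℕ),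
    (∀ t ∈ F, Tr t ∧ Scale k l t ∧ ∃ m ∈ W, Light k m.primeFactors t) →
    (F.card : ℝ) ≤ D * W.card * M ^ (1 / (k : ℝ)) := by
  classical
  have hk0 : (0 : ℝ) < k := by exact_mod_cast hk
  obtain ⟨D, hD, h⟩ := Pool.Agent.H785R2.ABC.stmtA1 ((2 : ℝ) ^ (18 * k))
    (one_le_pow₀ (by norm_num)) (1 / (k : ℝ)) (by positivity)
  refine ⟨2 ^ (18 * k) * D, by positivity, fun W M l hM hW hl F hF => ?_⟩
  have h1 : F.card ≤ ∑ m ∈ W, 2 ^ (18 * k * (m.primeFactors.card + 1)) := by
    have hsub : F ⊆ W.biUnion (fun m => F.filter fun t => Light k m.primeFactors t) := by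
      intro t ht
      obtain ⟨a1, a2, m, a3, a4⟩ := hF t ht
      rw [Finset.mem_biUnion]
      exact ⟨m, a3, Finset.mem_filter.2 ⟨ht, a4⟩⟩
    refine (Finset.card_le_card hsub).trans (Finset.card_biUnion_le.trans
      (Finset.sum_le_sum fun m _ => ?_))
    refine card_light hk (fun q hq => Nat.prime_of_mem_primeFactors hq) hl _ fun t ht => ?_
    obtain ⟨b1, b2⟩ := Finset.mem_filter.1 ht
    exact ⟨(hF t b1).1, (hF t b1).2.1, b2⟩
  have h2 : (F.card : ℝ) ≤ ∑ m ∈ W, 2 ^ (18 * k) * (D * M ^ (1 / (k : ℝ))) := by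
    have h3 : (F.card : ℝ) ≤ ((∑ m ∈ W, 2 ^ (18 * k * (m.primeFactors.card + 1)) : ℕ) : ℝ) := by
      exact_mod_cast h1
    refine h3.trans ?_
    push_cast
    refine Finset.sum_le_sum fun m hm => ?_
    obtain ⟨w1, w2⟩ := hW m hm
    have e1 : (2 : ℝ) ^ (18 * k * (m.primeFactors.card + 1)) =
        2 ^ (18 * k) * ((2 : ℝ) ^ (18 * k)) ^ m.primeFactors.card := by
      rw [pow_mul, pow_succ]
      ring
    rw [e1]
    refine mul_le_mul_of_nonneg_left ((h m w1).trans ?_) (by positivity)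
    exact mul_le_mul_of_nonneg_left (Real.rpow_le_rpow (Nat.cast_nonneg _) w2 (by positivity)) hD.le
  refine h2.trans (le_of_eq ?_)
  rw [Finset.sum_const, nsmul_eq_mul]
  ring

/-- light triples of all scales, the light product in a given family -/
theorem fam_total {k : ℕ} (hk : 1 ≤ k) : ∃ D : ℝ, 0 < D ∧ ∀ (W : Finset ℕ) (M H : ℝ), 1 ≤ M →
    1 ≤ H → 1 ∈ W → (∀ m ∈ W, 1 ≤ m ∧ (m : ℝ) ≤ M) → ∀ F : Finset (Fin 3 → ℕ),
    (∀ t ∈ F, Tr t ∧ Real.log (t 2) ≤ H ∧
      (2 * (k : ℝ) ≤ Real.log (t 2) → ∃ m ∈ W, Light k m.primeFactors t)) →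
    (F.card : ℝ) ≤ D * W.card * M ^ (1 / (k : ℝ)) * (1 + Real.log H) := by
  classical
  have hk0 : (0 : ℝ) < k := by exact_mod_cast hk
  have hk1 : (1 : ℝ) ≤ k := by exact_mod_cast hk
  obtain ⟨D, hD, h⟩ := fam_scale hk
  have hρ := rho_gt hk
  have hlρ : 0 < Real.log (rho k) := Real.log_pos hρ
  obtain ⟨D0, hD0⟩ : ∃ D0 : ℝ, D0 = ((⌊Real.exp (2 * k)⌋₊ : ℝ) + 1) ^ 2 := ⟨_, rfl⟩
  have hD0' : 0 ≤ D0 := by rw [hD0]; positivity
  refine ⟨D0 + D * (1 + 1 / Real.log (rho k)), by positivity, fun W M H hM hH h1W hW F hF => ?_⟩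
  have hlH : 0 ≤ Real.log H := Real.log_nonneg hH
  have hMp : 1 ≤ M ^ (1 / (k : ℝ)) := Real.one_le_rpow hM (by positivity)
  have hWc : (1 : ℝ) ≤ W.card := by exact_mod_cast Finset.card_pos.2 ⟨1, h1W⟩
  obtain ⟨Z, hZ⟩ : ∃ Z : ℝ, Z = W.card * M ^ (1 / (k : ℝ)) := ⟨_, rfl⟩
  have hZ1 : 1 ≤ Z := by rw [hZ]; exact one_le_mul_of_one_le_of_one_le hWc hMp
  set F1 := F.filter fun t => Real.log (t 2) ≤ 2 * k with hF1
  set F2 := F.filter fun t => ¬ Real.log (t 2) ≤ 2 * k with hF2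
  have hcardN : F.card = F1.card + F2.card :=
    (Finset.card_filter_add_card_filter_not (s := F) (fun t => Real.log (t 2) ≤ 2 * k)).symm
  have hcard : (F.card : ℝ) = F1.card + F2.card := by
    rw [hcardN, Nat.cast_add]
  have c1 : (F1.card : ℝ) ≤ D0 := by
    have h1 := small_height (2 * k) F1 (fun t ht => by
      obtain ⟨b1, b2⟩ := Finset.mem_filter.1 ht
      exact ⟨(hF t b1).1, b2⟩)
    rw [hD0]
    exact_mod_cast h1
  have c2 : (F2.card : ℝ) ≤ D * Z * ((1 + 1 / Real.log (rho k)) * (1 + Real.log H)) := by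
    rcases le_or_gt (2 * (k : ℝ)) H with hcase | hcase
    · obtain ⟨J, hJ, G, hG, hGc⟩ := scales hk (l0 := 2 * k) (H := H) (by positivity) hcase F2
        (fun t ht => by
          obtain ⟨b1, b2⟩ := Finset.mem_filter.1 ht
          exact ⟨(not_le.1 b2).le, (hF t b1).2.1⟩)
      have hGj : ∀ j ∈ Finset.range (J + 1), ((G j).card : ℝ) ≤ D * Z := by
        intro j _
        have := h W M (2 * k * rho k ^ j) hM hW ?_ (G j) fun t ht => ?_
        · rw [hZ, ← mul_assoc]
          exact this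
        · have : 1 ≤ rho k ^ j := one_le_pow₀ hρ.le
          nlinarith
        · obtain ⟨d1, d2⟩ := hG j t ht
          obtain ⟨b1, b2⟩ := Finset.mem_filter.1 d1
          exact ⟨(hF t b1).1, d2, (hF t b1).2.2 (not_le.1 b2).le⟩
      have h3 : (F2.card : ℝ) ≤ ∑ j ∈ Finset.range (J + 1), ((G j).card : ℝ) := by
        exact_mod_cast hGc
      refine (h3.trans (Finset.sum_le_sum hGj)).trans ?_
      rw [Finset.sum_const, Finset.card_range, nsmul_eq_mul, mul_comm]
      refine mul_le_mul_of_nonneg_left ?_ (by positivity)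
      have h4 : (J : ℝ) * Real.log (rho k) ≤ Real.log H := by
        rw [← Real.log_pow]
        refine Real.log_le_log (by positivity) ?_
        refine le_trans ?_ hJ
        have : 0 < rho k ^ J := by positivity
        nlinarith
      have h5 : (J : ℝ) ≤ 1 / Real.log (rho k) * Real.log H := by
        rw [one_div, ← div_eq_inv_mul, le_div_iff₀ hlρ]
        exact h4
      push_cast
      have h6 : 0 < 1 / Real.log (rho k) := by positivity
      nlinarith
    · have : F2 = ∅ := by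
        rw [Finset.eq_empty_iff_forall_notMem]
        intro t ht
        obtain ⟨b1, b2⟩ := Finset.mem_filter.1 ht
        have := (hF t b1).2.1
        linarith [not_le.1 b2]
      rw [this, Finset.card_empty, Nat.cast_zero]
      positivity
  rw [hcard]
  have c3 : D0 ≤ D0 * Z * (1 + Real.log H) := by
    have : 1 ≤ Z * (1 + Real.log H) := one_le_mul_of_one_le_of_one_le hZ1 (by linarith)
    calc D0 = D0 * 1 := (mul_one _).symm
      _ ≤ D0 * (Z * (1 + Real.log H)) := mul_le_mul_of_nonneg_left this hD0'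
      _ = _ := by ring
  calc (F1.card : ℝ) + F2.card ≤ D0 * Z * (1 + Real.log H) +
      D * Z * ((1 + 1 / Real.log (rho k)) * (1 + Real.log H)) := by linarith
    _ = (D0 + D * (1 + 1 / Real.log (rho k))) * Z * (1 + Real.log H) := by ring
    _ = _ := by rw [hZ]; ring

/-- the squarefree integers up to `Z` all of whose primes lie in `P` -/
noncomputable def prods (P : Finset ℕ) (Z : ℝ) : Finset ℕ :=
  (Finset.Icc 1 ⌊Z⌋₊).filter fun m => Squarefree m ∧ ∀ p ∈ m.primeFactors, p ∈ P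

/-- a product of distinct primes is squarefree -/
theorem sqf {S : Finset ℕ} (hS : ∀ q ∈ S, q.Prime) : Squarefree (∏ q ∈ S, q) := by
  refine Finset.squarefree_prod_of_pairwise_isCoprime (fun p hp q hq hpq => ?_)
    fun q hq => (hS q hq).squarefree
  simp only [Function.onFun, ← Nat.coprime_iff_isRelPrime]
  exact (Nat.coprime_primes (hS p hp) (hS q hq)).2 hpq

/-- powers of the logarithm -/
theorem log_pow_le (ε : ℝ) (hε : 0 < ε) : ∃ D : ℝ, 0 < D ∧ ∀ X : ℝ, 1 ≤ X →
    1 + 3000 * (1 + Real.log X) ^ 6 ≤ D * X ^ ε := by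
  refine ⟨1 + 3000 * (1 + 6 / ε) ^ 6, by positivity, fun X hX => ?_⟩
  have hX0 : 0 < X := by linarith
  have h1 : Real.log X ≤ X ^ (ε / 6) / (ε / 6) := Real.log_le_rpow_div hX0.le (by positivity)
  have h2 : 1 ≤ X ^ (ε / 6) := Real.one_le_rpow hX (by positivity)
  have h3 : 1 + Real.log X ≤ (1 + 6 / ε) * X ^ (ε / 6) := by
    have e1 : X ^ (ε / 6) / (ε / 6) = 6 / ε * X ^ (ε / 6) := by
      field_simp
    rw [e1] at h1
    linarith
  have hl : 0 ≤ Real.log X := Real.log_nonneg hX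
  have h4 : (1 + Real.log X) ^ 6 ≤ ((1 + 6 / ε) * X ^ (ε / 6)) ^ 6 :=
    pow_le_pow_left₀ (by linarith) h3 6
  have h5 : (X ^ (ε / 6)) ^ 6 = X ^ ε := by
    rw [← Real.rpow_natCast, ← Real.rpow_mul hX0.le]
    congr 1
    push_cast
    ring
  rw [mul_pow, h5] at h4
  have h6 : 1 ≤ X ^ ε := Real.one_le_rpow hX hε.le
  have h7 : 0 ≤ (1 + 6 / ε) ^ 6 := by positivity
  nlinarith

/-- the height of a triple of radical at most `X` -/
theorem height_le {t : Fin 3 → ℕ} (h : Tr t) {X : ℝ} (hX : 1 ≤ X)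
    (hr : rr t 0 + rr t 1 + rr t 2 ≤ Real.log X) :
    Real.log (t 2) ≤ Real.exp (3000 * (1 + Real.log X) ^ 6) := by
  have hX0 : 0 < X := by linarith
  have hl : 0 ≤ Real.log X := Real.log_nonneg hX
  have e1 : Real.log (Real.exp 1 * X) = 1 + Real.log X := by
    rw [Real.log_mul (by positivity) hX0.ne', Real.log_exp]
  have h1 := BK.height h (X := Real.exp 1 * X) (by positivity) (by rw [e1]; linarith)
    (by rw [e1]; linarith)
  rw [e1] at h1
  rcases le_or_gt (Real.log (t 2)) 0 with h2 | h2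
  · exact h2.trans (Real.exp_pos _).le
  · rw [← Real.log_le_iff_le_exp h2]
    exact h1

/-- **triples composed of given primes, all heights** -/
theorem all_upper (ε : ℝ) (hε : 0 < ε) : ∃ D : ℝ, 0 < D ∧ ∀ X y : ℝ, 1 ≤ X → 1 ≤ y →
    ∀ P : Finset ℕ, (∀ p ∈ P, (p : ℝ) ≤ y) → ∀ F : Finset (Fin 3 → ℕ), (∀ t ∈ F, Tr t ∧
      rr t 0 + rr t 1 + rr t 2 ≤ Real.log X ∧ (∀ q ∈ (N3 t).primeFactors, q ∈ P)) →
    (F.card : ℝ) ≤ D * X ^ ε * (prods P (y * X ^ (2 / 3 + ε))).card := by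
  classical
  obtain ⟨k, hk⟩ : ∃ k : ℕ, 4 / ε ≤ k := exists_nat_ge _
  have hk0 : (0 : ℝ) < k := lt_of_lt_of_le (by positivity) hk
  have hk1 : 1 ≤ k := by
    have : 0 < k := by exact_mod_cast hk0
    omega
  have hk1' : (1 : ℝ) ≤ k := by exact_mod_cast hk1
  have hkε : 4 / (k : ℝ) ≤ ε := by
    rw [div_le_iff₀ hε] at hk
    rw [div_le_iff₀ hk0]
    linarith
  have h1k : 0 < 1 / (k : ℝ) := by positivity
  have h1k1 : 1 / (k : ℝ) ≤ 1 := by rw [div_le_one hk0]; exact hk1'
  obtain ⟨D, hD, h⟩ := fam_total hk1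
  obtain ⟨D2, hD2, h2⟩ := log_pow_le (1 / (k : ℝ)) h1k
  refine ⟨D * D2, by positivity, fun X y hX hy P hP F hF => ?_⟩
  have hX0 : 0 < X := by linarith
  have hy0 : 0 < y := by linarith
  have hlX : 0 ≤ Real.log X := Real.log_nonneg hX
  obtain ⟨y', hy'⟩ : ∃ y', y' = min y X := ⟨_, rfl⟩
  have hy1 : 1 ≤ y' := by rw [hy']; exact le_min hy hX
  have hy0' : 0 < y' := by linarith
  have hyy : y' ≤ y := by rw [hy']; exact min_le_left _ _
  have hyX : y' ≤ X := by rw [hy']; exact min_le_right _ _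
  obtain ⟨M, hMe⟩ : ∃ M, M = X ^ (2 / 3 + 1 / (k : ℝ)) * y' := ⟨_, rfl⟩
  have hXp : 1 ≤ X ^ (2 / 3 + 1 / (k : ℝ)) := Real.one_le_rpow hX (by positivity)
  have hM : 1 ≤ M := by rw [hMe]; exact one_le_mul_of_one_le_of_one_le hXp hy1
  have hMM : M ≤ y * X ^ (2 / 3 + ε) := by
    rw [hMe, mul_comm]
    refine mul_le_mul hyy (Real.rpow_le_rpow_of_exponent_le hX ?_) (by positivity) hy0.le
    have e2 : 4 / (k : ℝ) = 4 * (1 / k) := by ring
    rw [e2] at hkε
    linarith
  have hWcard : ((prods P M).card : ℝ) ≤ (prods P (y * X ^ (2 / 3 + ε))).card := by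
    have : prods P M ⊆ prods P (y * X ^ (2 / 3 + ε)) := by
      intro m hm
      rw [prods, Finset.mem_filter, Finset.mem_Icc] at hm ⊢
      exact ⟨⟨hm.1.1, hm.1.2.trans (Nat.floor_le_floor hMM)⟩, hm.2⟩
    exact_mod_cast Finset.card_le_card this
  obtain ⟨H, hH⟩ : ∃ H, H = Real.exp (3000 * (1 + Real.log X) ^ 6) := ⟨_, rfl⟩
  have hlH : Real.log H = 3000 * (1 + Real.log X) ^ 6 := by rw [hH, Real.log_exp]
  have hH1 : 1 ≤ H := by
    rw [hH]
    exact Real.one_le_exp (by positivity)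
  have h1 := h (prods P M) M H hM hH1 (by
      rw [prods, Finset.mem_filter, Finset.mem_Icc]
      refine ⟨⟨le_rfl, Nat.le_floor (by simpa using hM)⟩, squarefree_one, fun p hp => ?_⟩
      simp at hp)
    (fun m hm => by
      rw [prods, Finset.mem_filter, Finset.mem_Icc] at hm
      refine ⟨hm.1.1, ?_⟩
      have : (m : ℝ) ≤ (⌊M⌋₊ : ℕ) := by exact_mod_cast hm.1.2
      exact this.trans (Nat.floor_le (by linarith)))
    F (fun t ht => by
      obtain ⟨a1, a2, a3⟩ := hF t ht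
      refine ⟨a1, by rw [hH]; exact height_le a1 hX a2, fun hbig => ?_⟩
      have hPy : ∀ q ∈ (N3 t).primeFactors, (q : ℝ) ≤ y' := by
        intro q hq
        rw [hy']
        refine le_min (hP q (a3 q hq)) ?_
        have hq0 : (0 : ℝ) < q := by exact_mod_cast (Nat.prime_of_mem_primeFactors hq).pos
        refine (Real.log_le_log_iff hq0 hX0).1 (le_trans ?_ a2)
        rw [← rr_sum a1]
        exact Finset.single_le_sum (f := fun q : ℕ => Real.log (q : ℝ))
          (fun q hq => log_prime_nonneg (Nat.prime_of_mem_primeFactors hq)) hq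
      obtain ⟨S, hSN, s1, s2, s3⟩ : ∃ S : Finset ℕ, S ⊆ (N3 t).primeFactors ∧
          (∀ q ∈ S, q.Prime) ∧ Light k S t ∧
          ((∏ q ∈ S, q : ℕ) : ℝ) ≤ X ^ (2 / 3 + 1 / (k : ℝ)) * y' := by
        obtain ⟨S, s1, s2, s3⟩ := smooth_choice hk1 hX hy1 a1 (by linarith) a2 hPy
        refine ⟨S ∩ (N3 t).primeFactors, Finset.inter_subset_right,
          fun q hq => s1 q (Finset.mem_inter.1 hq).1, ?_, ?_⟩
        · rw [Light] at s2 ⊢
          refine s2.trans (le_of_eq ?_)
          rw [← Finset.sum_inter_add_sum_sdiff S (N3 t).primeFactors]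
          have : ∑ q ∈ S \ (N3 t).primeFactors, (vv t q : ℝ) * Real.log q = 0 := by
            refine Finset.sum_eq_zero fun q hq => ?_
            have h0 : vv t q = 0 := by
              rw [vv]
              have hnot := (Finset.mem_sdiff.1 hq).2
              rw [← Nat.support_factorization, Finsupp.notMem_support_iff] at hnot
              exact hnot
            rw [h0]
            simp
          rw [this, add_zero]
        · refine le_trans ?_ s3
          have hdv : ∏ q ∈ S ∩ (N3 t).primeFactors, q ∣ ∏ q ∈ S, q :=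
            Finset.prod_dvd_prod_of_subset _ _ _ Finset.inter_subset_left
          have hle := Nat.le_of_dvd (Finset.prod_pos fun q hq => (s1 q hq).pos) hdv
          exact_mod_cast hle
      refine ⟨∏ q ∈ S, q, ?_, by rw [Nat.primeFactors_prod s1]; exact s2⟩
      rw [prods, Finset.mem_filter, Finset.mem_Icc]
      refine ⟨⟨Finset.prod_pos fun q hq => (s1 q hq).pos, Nat.le_floor (by rw [hMe]; exact s3)⟩,
        ?_, ?_⟩
      · exact sqf s1
      · intro p hp
        rw [Nat.primeFactors_prod s1] at hp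
        exact a3 p (hSN hp))
  rw [hlH] at h1
  have h3 := h2 X hX
  have hMk : M ^ (1 / (k : ℝ)) ≤ X ^ (3 / (k : ℝ)) := by
    have e1 : M ≤ X ^ (3 : ℝ) := by
      rw [hMe]
      calc X ^ (2 / 3 + 1 / (k : ℝ)) * y' ≤ X ^ (2 : ℝ) * X :=
            mul_le_mul (Real.rpow_le_rpow_of_exponent_le hX (by linarith)) hyX hy0'.le
              (by positivity)
        _ = X ^ (3 : ℝ) := by
            rw [← Real.rpow_add_one hX0.ne']
            norm_num
    calc M ^ (1 / (k : ℝ)) ≤ (X ^ (3 : ℝ)) ^ (1 / (k : ℝ)) :=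
          Real.rpow_le_rpow (by linarith) e1 h1k.le
      _ = X ^ (3 / (k : ℝ)) := by
          rw [← Real.rpow_mul hX0.le]
          congr 1
          ring
  calc (F.card : ℝ) ≤ D * (prods P M).card * M ^ (1 / (k : ℝ)) *
        (1 + 3000 * (1 + Real.log X) ^ 6) := h1
    _ ≤ D * (prods P (y * X ^ (2 / 3 + ε))).card * X ^ (3 / (k : ℝ)) *
        (D2 * X ^ (1 / (k : ℝ))) := by
        refine mul_le_mul (mul_le_mul (mul_le_mul_of_nonneg_left hWcard hD.le) hMk
          (by positivity) (by positivity)) h3 (by positivity) (by positivity)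
    _ = D * D2 * (X ^ (3 / (k : ℝ)) * X ^ (1 / (k : ℝ))) *
        (prods P (y * X ^ (2 / 3 + ε))).card := by ring
    _ = D * D2 * X ^ (4 / (k : ℝ)) * (prods P (y * X ^ (2 / 3 + ε))).card := by
        rw [← Real.rpow_add hX0]
        congr 3
        ring
    _ ≤ D * D2 * X ^ ε * (prods P (y * X ^ (2 / 3 + ε))).card := by
        refine mul_le_mul_of_nonneg_right (mul_le_mul_of_nonneg_left
          (Real.rpow_le_rpow_of_exponent_le hX hkε) (by positivity)) (Nat.cast_nonneg _)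

end Pool.Agent.TH867.SM
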